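import Mathlib

set_option autoImplicit false

/-!
# MP_820b44_gt: products of small spaces with `γ`-spaces

`A × Y` satisfies `S₁(Γ, Ω)`, hence `S₁(Γ, O)`, if `Y` has the `γ`-property and `|A| < cov(M)`, and if
`|A|, |Y| < 𝔡`. So Q1 holds if `𝔟 ≤ cov(M)`, Q2 holds if `cov(M) = 𝔡`, and a counterexample has
`|A| ≥ cov(M)` and `|Y| ≥ 𝔡`.
-/

open Set Filter Topology Cardinal

namespace Pool.Agent.Results.MP_820b44_gt.SmallTimesGamma

/-- open `γ`-covers: infinite families of open sets, none of them the whole space, such that every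
point lies in all but finitely many of them -/
structure IsGammaCover (X : Type) [TopologicalSpace X] (𝒰 : Set (Set X)) : Prop where
  isOpen : ∀ U ∈ 𝒰, IsOpen U
  ne_univ : ∀ U ∈ 𝒰, U ≠ Set.univ
  infinite : 𝒰.Infinite
  mem : ∀ x : X, {U ∈ 𝒰 | x ∉ U}.Finite

/-- open `ω`-covers: families of open sets, none of them the whole space, such that every finite set
lies in one of them -/
structure IsOmegaCover (X : Type) [TopologicalSpace X] (𝒰 : Set (Set X)) : Prop where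
  isOpen : ∀ U ∈ 𝒰, IsOpen U
  ne_univ : ∀ U ∈ 𝒰, U ≠ Set.univ
  mem : ∀ F : Finset X, ∃ U ∈ 𝒰, ∀ x ∈ F, x ∈ U

/-- the `γ`-property: every open `ω`-cover contains a `γ`-cover -/
def GammaProperty (X : Type) [TopologicalSpace X] : Prop :=
  ∀ 𝒰 : Set (Set X), IsOmegaCover X 𝒰 → ∃ 𝒱 ⊆ 𝒰, IsGammaCover X 𝒱

/-- `S₁(Γ, O)`: from a sequence of open `γ`-covers one can choose members which cover the space -/
def S1GammaO (X : Type) [TopologicalSpace X] : Prop :=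
  ∀ 𝒰 : ℕ → Set (Set X), (∀ n, IsGammaCover X (𝒰 n)) →
    ∃ U : ℕ → Set X, (∀ n, U n ∈ 𝒰 n) ∧ ∀ x, ∃ n, x ∈ U n

/-- the strong form of `S₁(Γ, Ω)`: every finite set lies in infinitely many of the chosen members -/
def S1GammaOmega (X : Type) [TopologicalSpace X] : Prop :=
  ∀ 𝒰 : ℕ → Set (Set X), (∀ n, IsGammaCover X (𝒰 n)) →
    ∃ U : ℕ → Set X, (∀ n, U n ∈ 𝒰 n) ∧ ∀ F : Finset X, ∃ᶠ n in atTop, ∀ x ∈ F, x ∈ U n

/-- the bounding number -/
noncomputable def bNum : Cardinal.{0} :=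
  sInf {κ | ∃ F : Set (ℕ → ℕ), #F = κ ∧ ∀ g : ℕ → ℕ, ∃ f ∈ F, ¬ ∀ᶠ n in atTop, f n ≤ g n}

/-- the dominating number -/
noncomputable def dNum : Cardinal.{0} :=
  sInf {κ | ∃ F : Set (ℕ → ℕ), #F = κ ∧ ∀ g : ℕ → ℕ, ∃ f ∈ F, ∀ᶠ n in atTop, g n ≤ f n}

/-- the least number of meager sets that cover the Baire space -/
noncomputable def covM : Cardinal.{0} :=
  sInf {κ | ∃ 𝒮 : Set (Set (ℕ → ℕ)), #𝒮 = κ ∧ (∀ S ∈ 𝒮, IsMeagre S) ∧ ⋃₀ 𝒮 = Set.univ}

/-- the statement of the problem for the sets `A` of size `< κ`: Q1 for `κ = 𝔟`, Q2 for `κ = 𝔡` -/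
def Statement (κ : Cardinal.{0}) : Prop :=
  ∀ A Y : Set (ℕ → Bool), (∀ a ∈ A, {n | a n = true}.Infinite) → #A < κ → GammaProperty Y →
    S1GammaO (A × Y : Type)

/-! ### `γ`-spaces -/

/-- selection from sequences -/
theorem gamma_select {Y : Type} [TopologicalSpace Y] [T1Space Y] (hY : GammaProperty Y)
    (O : ℕ → ℕ → Set Y) (hO : ∀ n m, IsOpen (O n m)) (hm : ∀ y n, ∀ᶠ m in atTop, y ∈ O n m) :
    ∃ f : ℕ → ℕ, ∀ y, ∀ᶠ n in atTop, y ∈ O n (f n) := by
  classical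
  by_cases hfin : Finite Y
  · have h1 : ∀ n, ∀ᶠ m in atTop, ∀ y, y ∈ O n m := fun n => eventually_all.2 fun y => hm y n
    choose f hf using fun n => (h1 n).exists
    exact ⟨f, fun y => Eventually.of_forall fun n => hf n y⟩
  have hinf : Infinite Y := not_finite_iff_infinite.1 hfin
  let q : ℕ ↪ Y := Infinite.natEmbedding Y
  let P : ℕ → ℕ → Set Y := fun n m => ⋂ i ∈ Finset.range (n + 1), O i m
  have hP : ∀ n m, IsOpen (P n m) := fun n m => isOpen_biInter_finset fun i _ => hO i m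
  have hPm : ∀ y n, ∀ᶠ m in atTop, y ∈ P n m := by
    intro y n
    have h1 : ∀ᶠ m in atTop, ∀ i ∈ Finset.range (n + 1), y ∈ O i m :=
      (Finset.eventually_all _).2 fun i _ => hm y i
    filter_upwards [h1] with m hm'
    exact mem_iInter₂.2 hm'
  have hPO : ∀ n m N, N ≤ n → P n m ⊆ O N m := by
    intro n m N hN y hy
    exact mem_iInter₂.1 hy N (Finset.mem_range.2 (by omega))
  let 𝒲 : Set (Set Y) := {W | ∃ n m, W = P n m \ {q n}}
  have hW : IsOmegaCover Y 𝒲 := by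
    refine ⟨?_, ?_, ?_⟩
    · rintro _ ⟨n, m, rfl⟩
      exact (hP n m).sdiff isClosed_singleton
    · rintro _ ⟨n, m, rfl⟩ h
      have : q n ∈ P n m \ {q n} := by rw [h]; trivial
      exact this.2 rfl
    · intro F
      obtain ⟨n, hn⟩ : ∃ n, q n ∉ F := by
        by_contra hcon
        push Not at hcon
        have : (Set.range q).Finite := F.finite_toSet.subset (by
          rintro _ ⟨n, rfl⟩
          exact hcon n)
        exact Set.infinite_range_of_injective q.injective this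
      have h1 : ∀ᶠ m in atTop, ∀ y ∈ F, y ∈ P n m :=
        (Finset.eventually_all _).2 fun y _ => hPm y n
      obtain ⟨m, hm'⟩ := h1.exists
      refine ⟨P n m \ {q n}, ⟨n, m, rfl⟩, fun y hy => ⟨hm' y hy, ?_⟩⟩
      intro h
      rw [mem_singleton_iff] at h
      exact hn (h ▸ hy)
  obtain ⟨𝒱, hVW, hV⟩ := hY 𝒲 hW
  choose! a b hab using fun V (hV : V ∈ 𝒱) => hVW hV
  have hlt : ∀ N, {V ∈ 𝒱 | a V < N}.Finite := by
    intro N
    have h1 : {V ∈ 𝒱 | a V < N} ⊆ ⋃ k ∈ Finset.range N, {V ∈ 𝒱 | q k ∉ V} := by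
      rintro V ⟨hV1, hV2⟩
      refine mem_iUnion₂.2 ⟨a V, Finset.mem_range.2 hV2, hV1, ?_⟩
      intro h
      have h2 : ∀ W, W = P (a V) (b V) \ {q (a V)} → q (a V) ∉ W := by
        rintro _ rfl h3
        exact h3.2 (mem_singleton_iff.2 rfl)
      exact h2 V (hab V hV1) h
    exact ((Finset.range N).finite_toSet.biUnion fun k _ => hV.mem (q k)).subset h1
  have hge : ∀ N, ∃ V ∈ 𝒱, N ≤ a V := by
    intro N
    by_contra hcon
    push Not at hcon
    exact hV.infinite ((hlt N).subset fun V hV' => ⟨hV', hcon V hV'⟩)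
  choose V hV1 hV2 using hge
  refine ⟨fun N => b (V N), fun y => ?_⟩
  obtain ⟨N₀, hN₀⟩ : ∃ N₀, ∀ W ∈ 𝒱, y ∉ W → a W < N₀ := by
    obtain ⟨M, hM⟩ := ((hV.mem y).image a).bddAbove
    exact ⟨M + 1, fun W hW' hy => Nat.lt_succ_of_le (hM ⟨W, ⟨hW', hy⟩, rfl⟩)⟩
  filter_upwards [eventually_ge_atTop N₀] with N hN
  have h1 : y ∈ V N := by
    by_contra hy
    have := hN₀ _ (hV1 N) hy
    have := hV2 N
    omega
  rw [hab _ (hV1 N)] at h1
  exact hPO _ _ _ (hV2 N) h1.1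

/-! ### functions which meet all functions of a small family -/

theorem meet_dense (g : ℕ → ℕ) (N : ℕ) : Dense {f : ℕ → ℕ | ∃ n, N ≤ n ∧ f n = g n} := by
  intro f₀
  have h1 : Tendsto (fun k : ℕ => fun n : ℕ => if n < k then f₀ n else g n) atTop (𝓝 f₀) := by
    rw [tendsto_pi_nhds]
    intro n
    apply tendsto_const_nhds.congr'
    filter_upwards [eventually_gt_atTop n] with k hk
    rw [if_pos hk]
  refine mem_closure_of_tendsto h1 (Eventually.of_forall fun k => ?_)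
  refine ⟨max N k, le_max_left _ _, ?_⟩
  dsimp only
  rw [if_neg (by simp)]

theorem meet_open (g : ℕ → ℕ) (N : ℕ) : IsOpen {f : ℕ → ℕ | ∃ n, N ≤ n ∧ f n = g n} := by
  have h1 : {f : ℕ → ℕ | ∃ n, N ≤ n ∧ f n = g n} = ⋃ n, ⋃ (_ : N ≤ n), (fun f : ℕ → ℕ => f n) ⁻¹' {g n} := by
    ext f
    simp
  rw [h1]
  exact isOpen_iUnion fun n => isOpen_iUnion fun _ =>
    (isOpen_discrete _).preimage (continuous_apply n)

theorem meager_avoid (g : ℕ → ℕ) : IsMeagre {f : ℕ → ℕ | ¬ ∃ᶠ n in atTop, f n = g n} := by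
  have h1 : {f : ℕ → ℕ | ¬ ∃ᶠ n in atTop, f n = g n}ᶜ = ⋂ N, {f : ℕ → ℕ | ∃ n, N ≤ n ∧ f n = g n} := by
    ext f
    rw [mem_compl_iff, Set.mem_ofPred_eq, not_not, frequently_atTop, mem_iInter]
    rfl
  rw [IsMeagre, h1]
  exact countable_iInter_mem.2 fun N => residual_of_dense_open (meet_open g N) (meet_dense g N)

theorem meets {S : Type} (hS : #S < covM) (g : S → ℕ → ℕ) :
    ∃ f : ℕ → ℕ, ∀ s, ∃ᶠ n in atTop, f n = g s n := by
  by_contra hcon
  push Not at hcon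
  have h1 : covM ≤ #(Set.range fun s => {f : ℕ → ℕ | ¬ ∃ᶠ n in atTop, f n = g s n}) := by
    apply csInf_le'
    refine ⟨_, rfl, ?_, ?_⟩
    · rintro _ ⟨s, rfl⟩
      exact meager_avoid (g s)
    · apply eq_univ_of_forall
      intro f
      obtain ⟨s, hs⟩ := hcon f
      refine ⟨_, ⟨s, rfl⟩, ?_⟩
      show ¬ ∃ᶠ n in atTop, f n = g s n
      rw [not_frequently]
      exact hs
  exact absurd (h1.trans mk_range_le) (not_le.2 hS)

/-! ### cardinals -/

theorem not_dom {S : Type} (hS : #S < dNum) (g : S → ℕ → ℕ) :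
    ∃ f : ℕ → ℕ, ∀ s, ∃ᶠ n in atTop, g s n ≤ f n := by
  by_contra hcon
  push Not at hcon
  have h1 : dNum ≤ #(Set.range g) := by
    apply csInf_le'
    refine ⟨_, rfl, fun f => ?_⟩
    obtain ⟨s, hs⟩ := hcon f
    refine ⟨g s, ⟨s, rfl⟩, ?_⟩
    filter_upwards [hs] with n hn
    exact hn.le
  exact absurd (h1.trans mk_range_le) (not_le.2 hS)

theorem aleph0_lt_covM : ℵ₀ < covM := by
  have hne : {κ : Cardinal.{0} | ∃ 𝒮 : Set (Set (ℕ → ℕ)), #𝒮 = κ ∧ (∀ S ∈ 𝒮, IsMeagre S) ∧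
      ⋃₀ 𝒮 = Set.univ}.Nonempty := by
    refine ⟨_, Set.range fun f : ℕ → ℕ => {h : ℕ → ℕ | ¬ ∃ᶠ n in atTop, h n = f n + 1}, rfl, ?_, ?_⟩
    · rintro _ ⟨f, rfl⟩
      exact meager_avoid fun n => f n + 1
    · apply eq_univ_of_forall
      intro f
      refine ⟨_, ⟨f, rfl⟩, ?_⟩
      show ¬ ∃ᶠ n in atTop, f n = f n + 1
      simp
  obtain ⟨𝒮, h1, h2, h3⟩ := csInf_mem hne
  change #𝒮 = covM at h1
  rw [← h1]
  by_contra hcon
  rw [not_lt, Cardinal.le_aleph0_iff_set_countable] at hcon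
  have h4 : IsMeagre (⋃₀ 𝒮) := by
    rw [sUnion_eq_biUnion]
    exact isMeagre_biUnion hcon h2
  rw [h3] at h4
  exact not_isMeagre_of_mem_residual (univ_mem : Set.univ ∈ residual (ℕ → ℕ)) h4

theorem aleph0_lt_dNum : ℵ₀ < dNum := by
  have hne : {κ : Cardinal.{0} | ∃ F : Set (ℕ → ℕ), #F = κ ∧
      ∀ g : ℕ → ℕ, ∃ f ∈ F, ∀ᶠ n in atTop, g n ≤ f n}.Nonempty :=
    ⟨_, Set.univ, rfl, fun g => ⟨g, trivial, Eventually.of_forall fun n => le_rfl⟩⟩
  obtain ⟨F, h1, h2⟩ := csInf_mem hne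
  change #F = dNum at h1
  rw [← h1]
  by_contra hcon
  rw [not_lt, Cardinal.le_aleph0_iff_set_countable] at hcon
  obtain ⟨f₀, hf₀, -⟩ := h2 0
  obtain ⟨e, he⟩ := hcon.exists_eq_range ⟨f₀, hf₀⟩
  obtain ⟨f, hf, h3⟩ := h2 fun n => (Finset.range (n + 1)).sup (fun k => e k n) + 1
  rw [he] at hf
  obtain ⟨k, rfl⟩ := hf
  obtain ⟨N, hN⟩ := eventually_atTop.1 h3
  have h4 := hN (max N k) (le_max_left _ _)
  have h5 : e k (max N k) ≤ (Finset.range (max N k + 1)).sup (fun i => e i (max N k)) :=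
    Finset.le_sup (f := fun i => e i (max N k)) (Finset.mem_range.2 (by omega))
  omega

theorem finset_lt {S : Type} {κ : Cardinal.{0}} (h : #S < κ) (hκ : ℵ₀ < κ) : #(Finset S) < κ := by
  rcases finite_or_infinite S with hS | hS
  · exact (Cardinal.lt_aleph0_of_finite (Finset S)).trans hκ
  · rwa [Cardinal.mk_finset_of_infinite]

/-! ### products -/

/-- enumerations of a sequence of covers -/
theorem exists_enum {X : Type} [TopologicalSpace X] (𝒰 : ℕ → Set (Set X))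
    (h𝒰 : ∀ n, IsGammaCover X (𝒰 n)) : ∃ W : ℕ → ℕ → Set X, (∀ n m, W n m ∈ 𝒰 n) ∧
      ∀ n x, ∀ᶠ m in atTop, x ∈ W n m := by
  refine ⟨fun n m => ((h𝒰 n).infinite.natEmbedding _ m : Set X), fun n m => Subtype.coe_prop _, ?_⟩
  intro n x
  have h1 : {m : ℕ | x ∉ ((h𝒰 n).infinite.natEmbedding _ m : Set X)}.Finite := by
    refine Set.Finite.of_finite_image (f := fun m => ((h𝒰 n).infinite.natEmbedding _ m : Set X))
      (((h𝒰 n).mem x).subset ?_) ?_
    · rintro _ ⟨m, hm, rfl⟩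
      exact ⟨Subtype.coe_prop _, hm⟩
    · intro i _ j _ hij
      exact (((h𝒰 n).infinite.natEmbedding _).injective (Subtype.ext hij))
  rw [← Nat.cofinite_eq_atTop]
  exact h1

theorem part1 {A Y : Type} [TopologicalSpace A] [TopologicalSpace Y] [T1Space Y]
    (hY : GammaProperty Y) (hA : #A < covM) : S1GammaOmega (A × Y) := by
  classical
  intro 𝒰 h𝒰
  obtain ⟨W, hW1, hW2⟩ := exists_enum 𝒰 h𝒰
  have key : ∀ E : Finset A, ∃ f : ℕ → ℕ, ∀ y, ∀ᶠ n in atTop, ∀ a ∈ E, (a, y) ∈ W n (f n) := by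
    intro E
    obtain ⟨f, hf⟩ := gamma_select hY (fun n m => ⋂ a ∈ E, (fun y => (a, y)) ⁻¹' W n m)
      (fun n m => isOpen_biInter_finset fun a _ =>
        ((h𝒰 n).isOpen _ (hW1 n m)).preimage (by fun_prop))
      (fun y n => by
        have h1 : ∀ᶠ m in atTop, ∀ a ∈ E, (a, y) ∈ W n m :=
          (Finset.eventually_all _).2 fun a _ => hW2 n (a, y)
        filter_upwards [h1] with m hm
        exact mem_iInter₂.2 hm)
    refine ⟨f, fun y => ?_⟩
    filter_upwards [hf y] with n hn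
    exact mem_iInter₂.1 hn
  choose g hg using key
  obtain ⟨f, hf⟩ := meets (finset_lt hA aleph0_lt_covM) g
  refine ⟨fun n => W n (f n), fun n => hW1 n _, fun F => ?_⟩
  have h1 : ∀ᶠ n in atTop, ∀ y ∈ F.image Prod.snd, ∀ a ∈ F.image Prod.fst,
      (a, y) ∈ W n (g (F.image Prod.fst) n) :=
    (Finset.eventually_all _).2 fun y _ => hg (F.image Prod.fst) y
  refine ((hf (F.image Prod.fst)).and_eventually h1).mono ?_
  rintro n ⟨h2, h3⟩ x hx
  have h4 := h3 x.2 (Finset.mem_image_of_mem _ hx) x.1 (Finset.mem_image_of_mem _ hx)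
  rw [← h2] at h4
  exact h4

theorem part2 {X : Type} [TopologicalSpace X] (hX : #X < dNum) : S1GammaOmega X := by
  classical
  intro 𝒰 h𝒰
  obtain ⟨W, hW1, hW2⟩ := exists_enum 𝒰 h𝒰
  have key : ∀ (E : Finset X) (n : ℕ), ∃ m₀, ∀ m ≥ m₀, ∀ x ∈ E, x ∈ W n m := by
    intro E n
    exact eventually_atTop.1 ((Finset.eventually_all _).2 fun x _ => hW2 n x)
  choose g hg using key
  obtain ⟨f, hf⟩ := not_dom (finset_lt hX aleph0_lt_dNum) g
  exact ⟨fun n => W n (f n), fun n => hW1 n _, fun F => (hf F).mono fun n hn => hg F n _ hn⟩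

theorem omega_O {X : Type} [TopologicalSpace X] (h : S1GammaOmega X) : S1GammaO X := by
  intro 𝒰 h𝒰
  obtain ⟨U, h1, h2⟩ := h 𝒰 h𝒰
  refine ⟨U, h1, fun x => ?_⟩
  obtain ⟨n, hn⟩ := (h2 {x}).exists
  exact ⟨n, hn x (Finset.mem_singleton_self x)⟩

/-- MP_820b44_gt, partial result on Q1 and Q2. -/
theorem result :
    (∀ (A Y : Type) [TopologicalSpace A] [TopologicalSpace Y] [T1Space Y],
      GammaProperty Y → #A < covM → S1GammaOmega (A × Y)) ∧
    (∀ (A Y : Type) [TopologicalSpace A] [TopologicalSpace Y], #A < dNum → #Y < dNum →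
      S1GammaOmega (A × Y)) ∧
    (∀ X : Type, ∀ [TopologicalSpace X], S1GammaOmega X → S1GammaO X) ∧
    (∀ κ : Cardinal.{0}, κ ≤ covM → Statement κ) ∧
    (bNum ≤ covM → Statement bNum) ∧ (covM = dNum → Statement dNum) := by
  have h4 : ∀ κ : Cardinal.{0}, κ ≤ covM → Statement κ := fun κ hκ A Y _ hA hY =>
    omega_O (part1 hY (hA.trans_le hκ))
  refine ⟨fun A Y _ _ _ hY hA => part1 hY hA, fun A Y _ _ hA hY => part2 ?_,
    fun X _ h => omega_O h, h4, fun h => h4 _ h, fun h => h4 _ h.ge⟩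
  rw [mk_prod, lift_id, lift_id]
  exact Cardinal.mul_lt_of_lt aleph0_lt_dNum.le hA hY

end Pool.Agent.Results.MP_820b44_gt.SmallTimesGamma
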